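import Pool.Agent.N116.EW.Stm
import Pool.Agent.Y989.SD.Main

/-! MP_fe58d8_pr, piece EW/5: one arm near the sides of the rectangle (`S_NX`). -/

set_option autoImplicit false

namespace Pool.Agent.N690.EW

open H974 H973 H12S H389NS H984N H984P H342P Finset
open Pool.Agent.N116.EW
open Pool.Agent.Y989.SD (hf QB mem_QB XT Win S_WIN Lp Flat emb)

/-- The rectangle as a set of vertices. -/
noncomputable def V (a b c d : ℤ) : Finset Vtx := Icc a b ×ˢ Icc c d

theorem mem_V {a b c d : ℤ} {y : Vtx} : y ∈ V a b c d ↔ (a ≤ y.1 ∧ y.1 ≤ b) ∧ c ≤ y.2 ∧ y.2 ≤ d := by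
  unfold V
  rw [Finset.mem_product, Finset.mem_Icc, Finset.mem_Icc]

theorem ES_V (a b c d : ℤ) : ES (V a b c d) = RE a b c d := by
  ext ⟨x, y, _ | _⟩
  · rw [mem_ES, mem_V, mem_V, mem_RE_false, src_mk, tgt_false]
    omega
  · rw [mem_ES, mem_V, mem_V, mem_RE_true, src_mk, tgt_true]
    omega

theorem lp0 : Lp 3 (fun _ => 0) := ⟨rfl, fun x => by norm_num⟩

theorem flat0 (L : ℤ) (hL : 0 ≤ L) : Flat (fun _ => 0) 0 1 1 L := by
  intro x _
  have h1 : (0 : ℝ) ≤ |(x : ℝ)| * (|(x : ℝ)| / L) ^ (1 : ℝ) := by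
    have : (0 : ℝ) ≤ (L : ℝ) := by exact_mod_cast hL
    positivity
  simp only [Int.cast_zero, zero_mul, sub_zero, abs_zero, one_mul]
  linarith

theorem win_bot {a b c d L : ℤ} {v : Vtx} (hL : 0 ≤ L) (h0 : v.2 = c) (h1 : a ≤ v.1 - L)
    (h2 : v.1 + L ≤ b) (h3 : c + 32 * L ≤ d) : Win (V a b c d) v L 1 1 := by
  refine ⟨(0, 1), Or.inl rfl, fun _ => 0, 0, lp0, by norm_num, flat0 L hL, ?_⟩
  intro y hy
  rw [mem_QB] at hy
  rw [mem_V]
  simp only [emb]
  omega

theorem win_top {a b c d L : ℤ} {v : Vtx} (hL : 0 ≤ L) (h0 : v.2 = d) (h1 : a ≤ v.1 - L)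
    (h2 : v.1 + L ≤ b) (h3 : c + 32 * L ≤ d) : Win (V a b c d) v L 1 1 := by
  refine ⟨(0, -1), by simp, fun _ => 0, 0, lp0, by norm_num, flat0 L hL, ?_⟩
  intro y hy
  rw [mem_QB] at hy
  rw [mem_V]
  simp only [emb]
  omega

theorem win_left {a b c d L : ℤ} {v : Vtx} (hL : 0 ≤ L) (h0 : v.1 = a) (h1 : c ≤ v.2 - L)
    (h2 : v.2 + L ≤ d) (h3 : a + 32 * L ≤ b) : Win (V a b c d) v L 1 1 := by
  refine ⟨(1, 0), by simp, fun _ => 0, 0, lp0, by norm_num, flat0 L hL, ?_⟩
  intro y hy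
  rw [mem_QB] at hy
  rw [mem_V]
  simp only [emb]
  omega

theorem win_right {a b c d L : ℤ} {v : Vtx} (hL : 0 ≤ L) (h0 : v.1 = b) (h1 : c ≤ v.2 - L)
    (h2 : v.2 + L ≤ d) (h3 : a + 32 * L ≤ b) : Win (V a b c d) v L 1 1 := by
  refine ⟨(-1, 0), by simp, fun _ => 0, 0, lp0, by norm_num, flat0 L hL, ?_⟩
  intro y hy
  rw [mem_QB] at hy
  rw [mem_V]
  simp only [emb]
  omega

theorem sd_le {u v : Vtx} {n : ℤ} : sd u v ≤ n ↔
    (-n ≤ u.1 - v.1 ∧ u.1 - v.1 ≤ n) ∧ -n ≤ u.2 - v.2 ∧ u.2 - v.2 ≤ n := by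
  unfold sd
  rw [max_le_iff, abs_le, abs_le]

theorem le_sd {u v : Vtx} {n : ℤ} : n ≤ sd u v ↔
    (n ≤ u.1 - v.1 ∨ n ≤ -(u.1 - v.1)) ∨ n ≤ u.2 - v.2 ∨ n ≤ -(u.2 - v.2) := by
  unfold sd
  rw [le_max_iff, le_abs, le_abs]

/-- the upper bound for the crossing probability in a window -/
theorem reach_ne_mem {T : Finset Vtx} {G : Set Edg} (hG : ∀ e ∈ G, e ∈ ES T) {u w : Vtx}
    (h : Reach G u w) (hne : u ≠ w) : u ∈ T ∧ w ∈ T := by
  have key : ∀ {u w : Vtx}, Reach G u w → u ≠ w → w ∈ T := by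
    intro u w h hne
    cases h with
    | refl => exact absurd rfl hne
    | tail _ hs =>
      obtain ⟨e, he, hc⟩ := hs
      have := mem_ES.mp (hG e he)
      rcases hc with ⟨_, h2⟩ | ⟨h1, _⟩
      · rw [← h2]; exact this.2
      · rw [← h1]; exact this.1
  exact ⟨key h.symm hne.symm, key h hne⟩

theorem pow_bd {C d R a b : ℝ} (hC : 0 ≤ C) (hd : 0 ≤ d) (hR : 0 < R) (ha : 0 ≤ a) (hb : 0 < b)
    (h : a / b ≤ 8 * (d / R)) :
    C * (a / b) ^ (1 / 3 : ℝ) ≤ 2 * C * (d / R) ^ (1 / 3 : ℝ) := by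
  have h1 : (a / b) ^ (1 / 3 : ℝ) ≤ (8 * (d / R)) ^ (1 / 3 : ℝ) :=
    Real.rpow_le_rpow (by positivity) h (by norm_num)
  have h2 : (8 * (d / R)) ^ (1 / 3 : ℝ) = 2 * (d / R) ^ (1 / 3 : ℝ) := by
    rw [Real.mul_rpow (by norm_num) (by positivity)]
    congr 1
    rw [show (8 : ℝ) = 2 ^ (3 : ℝ) by norm_num, ← Real.rpow_mul (by norm_num)]
    norm_num
  calc C * (a / b) ^ (1 / 3 : ℝ) ≤ C * (2 * (d / R) ^ (1 / 3 : ℝ)) := by
        rw [← h2]; gcongr
    _ = _ := by ring

section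

variable {C : ℝ}

/-- the window estimate -/
def WB (C : ℝ) : Prop := ∀ (T : Finset Vtx) (v : Vtx) (L : ℤ), Win T v L 1 1 → ∀ r R : ℤ,
  1 ≤ r → r ≤ R → R ≤ L → Pr hf (ES T) (XT T v r R) ≤ C * ((r : ℝ) / R) ^ (1 / 3 : ℝ)

/-- the free arc -/
theorem free_bound (hC : 0 ≤ C) (hW : WB C) {D : Dm} {z v : Vtx} {d R : ℕ} (hd : 1 ≤ d)
    (hdR : 8 * d < R) (hfar : ∀ u ∈ wv D, (R : ℤ) ≤ sd u z)
    (hwin : Win (V D.l D.r 0 D.h) v R 1 1) (hv : sd z v ≤ d) :
    Pr (fun _ => (1 / 2 : ℝ)) D.edges (NX D z d R) ≤ 2 * C * ((d : ℝ) / R) ^ (1 / 3 : ℝ) := by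
  have hE : D.edges = ES (V D.l D.r 0 D.h) := by rw [ES_V]; rfl
  have h1 := hW _ v R hwin (2 * d) (R - d) (by omega) (by omega) (by omega)
  have h2 : Pr (fun _ => (1 / 2 : ℝ)) D.edges (NX D z d R) ≤
      Pr (fun _ => (1 / 2 : ℝ)) D.edges (XT (V D.l D.r 0 D.h) v (2 * d) (R - d)) := by
    apply Pr_mono okhalf
    intro F hF hN
    obtain ⟨u, w, hu, hw, hr⟩ := hN.1 hfar
    have hne : u ≠ w := by
      rintro rfl
      omega
    have hG : ∀ e ∈ ((F : Set Edg) \ ↑(blk z d)), e ∈ ES (V D.l D.r 0 D.h) := by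
      intro e he
      rw [← hE]
      exact hF he.1
    obtain ⟨hu2, hw2⟩ := reach_ne_mem hG hr hne
    rw [sd_le] at hu hv
    rw [le_sd] at hw
    refine ⟨u, hu2, ?_, w, hw2, ?_, hr.mono Set.sdiff_subset⟩
    · rw [mem_BX]
      omega
    · rw [mem_BX]
      omega
  refine h2.trans ?_
  rw [hE]
  refine h1.trans ?_
  have hR : (0 : ℝ) < R := by exact_mod_cast (by omega : 0 < R)
  have hdR' : 8 * (d : ℝ) < R := by exact_mod_cast hdR
  have hd' : (1 : ℝ) ≤ d := by exact_mod_cast hd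
  push_cast
  apply pow_bd hC (by positivity) hR (by positivity) (by linarith)
  rw [div_le_iff₀ (by linarith), mul_assoc, div_mul_eq_mul_div, mul_div_assoc']
  rw [le_div_iff₀ hR]
  nlinarith

/-- the wired arc -/
theorem wired_bound (hC : 0 ≤ C) (hW : WB C) {D : Dm} {z v : Vtx} {d R : ℕ} (hd : 1 ≤ d)
    (hdR : 8 * d < R) (hfar : ∀ f ∈ D.outer, (R : ℤ) ≤ sd f z)
    (hin : ∀ e ∈ D.edges, e ∉ D.wir → sd (dsrc e) z ≤ R → sd (dtgt e) z ≤ R →
      dsrc e ∈ V D.l (D.r - 1) 0 (D.h - 1) ∧ dtgt e ∈ V D.l (D.r - 1) 0 (D.h - 1))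
    (hwin : Win (V D.l (D.r - 1) 0 (D.h - 1)) v R 1 1) (hv : sd z v ≤ d) :
    Pr (fun _ => (1 / 2 : ℝ)) D.edges (NX D z d R) ≤ 2 * C * ((d : ℝ) / R) ^ (1 / 3 : ℝ) := by
  set T : Finset Vtx := V D.l (D.r - 1) 0 (D.h - 1) with hT
  have hsub : ES T ⊆ dmp D.edges := by
    rw [hT, ES_V]
    rintro ⟨x, y, _ | _⟩ he
    · rw [mem_RE_false] at he
      rw [mem_dmp, dls_f, Dm.edges, mem_RE_true]
      omega
    · rw [mem_RE_true] at he
      rw [mem_dmp, dls_t, Dm.edges, mem_RE_false]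
      omega
  have h1 := hW _ v R hwin (3 * d) (R - d) (by omega) (by omega) (by omega)
  set A : Finset Edg → Prop := fun F => XT T v (3 * d) (R - d) (F ∩ ES T) with hA
  have h2 : Pr (fun _ => (1 / 2 : ℝ)) D.edges (NX D z d R) ≤
      Pr (fun _ => (1 / 2 : ℝ)) D.edges (fun F => A (dmp (D.edges \ F))) := by
    apply Pr_mono okhalf
    intro F hF hN
    obtain ⟨f, g, hu, hg, hr⟩ := hN.2 hfar
    rw [← reach_dl] at hr
    rw [sd_le] at hu hv
    rw [le_sd] at hg
    have hfin : inR (z.1 - R) (z.1 + R) (z.2 - R) (z.2 + R) f := by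
      unfold inR
      omega
    obtain ⟨w, hw1, hw2, hw3⟩ := first_exit hfin hr (by omega)
    have hG : ∀ e' ∈ (dl '' {e | e ∈ D.edges ∧ e ∉ D.cfg F ∧ e ∉ blk z d} ∩
        ↑(RE (z.1 - R) (z.1 + R) (z.2 - R) (z.2 + R)) : Set Edg),
        e' ∈ dmp (D.edges \ F) ∩ ES T := by
      rintro e' ⟨⟨e, ⟨he1, he2, he3⟩, rfl⟩, he4⟩
      have he5 := mem_RE_ends (by exact_mod_cast he4)
      rw [src_dl, tgt_dl] at he5
      have he2' : e ∉ F ∧ e ∉ D.wir := by
        constructor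
        · intro h; exact he2 (Or.inl h)
        · intro h; exact he2 (Or.inr h)
      have he6 := hin e he1 he2'.2 (by rw [sd_le]; unfold inR at he5; omega)
        (by rw [sd_le]; unfold inR at he5; omega)
      rw [Finset.mem_inter]
      refine ⟨?_, ?_⟩
      · rw [mem_dmp, Equiv.symm_apply_apply, Finset.mem_sdiff]
        exact ⟨he1, he2'.1⟩
      · rw [mem_ES, src_dl, tgt_dl]
        exact he6
    have hne : f ≠ w := by
      rintro rfl
      unfold inR at hw1
      omega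
    obtain ⟨hf2, hw4⟩ := reach_ne_mem (T := T) (fun e he => (Finset.mem_inter.1 (hG e he)).2) hw3 hne
    refine ⟨f, hf2, ?_, w, hw4, ?_, hw3.mono ?_⟩
    · rw [mem_BX]
      omega
    · rw [mem_BX]
      unfold inR at hw1
      omega
    · intro e he
      exact_mod_cast hG e he
  have h3 : Pr (fun _ => (1 / 2 : ℝ)) D.edges (fun F => A (dmp (D.edges \ F))) =
      Pr hf (ES T) (XT T v (3 * d) (R - d)) := by
    have e1 := Pr_compl (fun _ : Edg => (1 / 2 : ℝ)) D.edges (fun F => A (dmp F))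
    have e2 : (fun _ : Edg => (1 : ℝ) - 1 / 2) = fun _ => (1 / 2 : ℝ) := by
      funext _; norm_num
    rw [e2] at e1
    rw [← e1, ← pr_dmp]
    have e3 : Pr (fun _ => (1 / 2 : ℝ)) (dmp D.edges) A = Pr (fun _ => (1 / 2 : ℝ)) (ES T) A := by
      apply Pr_local hsub
      intro F _
      simp only [hA]
      rw [Finset.inter_assoc, Finset.inter_self]
    rw [e3]
    apply Pr_congr
    intro F hF
    simp only [hA]
    rw [Finset.inter_eq_left.2 hF]
  refine h2.trans ?_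
  rw [h3]
  refine h1.trans ?_
  have hR : (0 : ℝ) < R := by exact_mod_cast (by omega : 0 < R)
  have hdR' : 8 * (d : ℝ) < R := by exact_mod_cast hdR
  have hd' : (1 : ℝ) ≤ d := by exact_mod_cast hd
  push_cast
  apply pow_bd hC (by positivity) hR (by positivity) (by linarith)
  rw [div_le_iff₀ (by linarith), mul_assoc, div_mul_eq_mul_div, mul_div_assoc']
  rw [le_div_iff₀ hR]
  nlinarith

end

/-- **One arm near the boundary.** -/
theorem nx : S_NX := by
  intro κ hκ
  obtain ⟨c₀, C₀, -, hC₀, hWIN⟩ := Pool.Agent.Y989.SD.m_WIN 1 1 one_pos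
  have hW : WB C₀ := fun T v L hw r R h1 h2 h3 => (hWIN T v L hw r R h1 h2 h3).1
  refine ⟨2 * C₀ + 2, min 1 κ / 1000, by positivity, by positivity, ?_⟩
  intro n D hn hS z d R hz hd hbd hdR hRq
  have hd' : (1 : ℝ) ≤ d := by exact_mod_cast hd
  have hdR' : (d : ℝ) ≤ R := by exact_mod_cast hdR
  have hR0 : (0 : ℝ) < R := by linarith
  have hpow0 : (0 : ℝ) ≤ ((d : ℝ) / R) ^ (1 / 3 : ℝ) := by positivity
  by_cases h8 : R ≤ 8 * d
  · -- trivial case
    have h1 : Pr (fun _ => (1 / 2 : ℝ)) D.edges (NX D z d R) ≤ 1 := Pr_le_one okhalf _ _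
    have h2 : (1 / 8 : ℝ) ≤ (d : ℝ) / R := by
      rw [le_div_iff₀ hR0]
      have : (R : ℝ) ≤ 8 * d := by exact_mod_cast h8
      linarith
    have h3 : (1 / 8 : ℝ) ^ (1 / 3 : ℝ) ≤ ((d : ℝ) / R) ^ (1 / 3 : ℝ) :=
      Real.rpow_le_rpow (by norm_num) h2 (by norm_num)
    have h4 : (1 / 8 : ℝ) ^ (1 / 3 : ℝ) = 1 / 2 := by
      rw [show (1 / 8 : ℝ) = (1 / 2) ^ (3 : ℝ) by norm_num, ← Real.rpow_mul (by norm_num)]
      norm_num
    rw [h4] at h3
    nlinarith
  · push Not at h8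
    -- integer facts
    have hq0 : (0 : ℝ) < qd D z := by
      by_contra hn
      push Not at hn
      have : min 1 κ / 1000 * (qd D z : ℝ) ≤ 0 := mul_nonpos_of_nonneg_of_nonpos (by positivity) hn
      linarith
    have hq1 : 1000 * (R : ℤ) ≤ qd D z := by
      have h1 : (R : ℝ) ≤ 1 / 1000 * qd D z := by
        refine hRq.trans ?_
        apply mul_le_mul_of_nonneg_right _ hq0.le
        have := min_le_left (1 : ℝ) κ
        linarith
      have h2 : 1000 * (R : ℝ) ≤ qd D z := by linarith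
      exact_mod_cast h2
    have hqc : (1000 * (R : ℤ) ≤ sd z (D.l, 0) ∧ 1000 * (R : ℤ) ≤ sd z (D.r, 0)) ∧
        (1000 * (R : ℤ) ≤ sd z (D.l, D.h) ∧ 1000 * (R : ℤ) ≤ sd z (D.r, D.h)) ∧
        1000 * (R : ℤ) ≤ sd z (D.t, D.h) ∧ 1000 * (R : ℤ) ≤ sd z (0, 0) := by
      unfold qd at hq1
      simp only [le_min_iff] at hq1
      tauto
    obtain ⟨hok, hs1, hs2, hs3, hs4, hs5⟩ := hS
    obtain ⟨hl, hr, hh, hlt, htr⟩ := hok
    unfold inR at hz
    have hqn : (qd D z : ℝ) ≤ n := by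
      have h1 : qd D z ≤ max (D.r - D.l) D.h := by
        have h2 : qd D z ≤ sd z (D.l, 0) := by
          unfold qd
          exact (min_le_left _ _).trans ((min_le_left _ _).trans (min_le_left _ _))
        refine h2.trans ?_
        rw [sd_le]
        simp only
        have := le_max_left (D.r - D.l) D.h
        have := le_max_right (D.r - D.l) D.h
        omega
      have h2 : ((max (D.r - D.l) D.h : ℤ) : ℝ) ≤ n := by
        push_cast
        push_cast at hs4
        exact max_le hs4 hs5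
      exact (by exact_mod_cast h1 : (qd D z : ℝ) ≤ ((max (D.r - D.l) D.h : ℤ) : ℝ)).trans h2
    have hκn : 1000 * (R : ℝ) ≤ κ * n := by
      have h1 : (R : ℝ) ≤ κ / 1000 * qd D z := by
        refine hRq.trans ?_
        apply mul_le_mul_of_nonneg_right _ hq0.le
        have := min_le_right (1 : ℝ) κ
        linarith
      have h2 : κ / 1000 * (qd D z : ℝ) ≤ κ / 1000 * n :=
        mul_le_mul_of_nonneg_left hqn (by positivity)
      linarith
    have hRl : 1000 * (R : ℤ) ≤ -D.l := by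
      have : 1000 * (R : ℝ) ≤ -D.l := hκn.trans hs1
      exact_mod_cast this
    have hRr : 1000 * (R : ℤ) ≤ D.r := by
      have : 1000 * (R : ℝ) ≤ D.r := hκn.trans hs2
      exact_mod_cast this
    have hRh : 1000 * (R : ℤ) ≤ D.h := by
      have : 1000 * (R : ℝ) ≤ D.h := hκn.trans hs3
      exact_mod_cast this
    obtain ⟨⟨q1, q2⟩, ⟨q3, q4⟩, q5, q6⟩ := hqc
    rw [le_sd] at q1 q2 q3 q4 q5 q6
    simp only at q1 q2 q3 q4 q5 q6
    have hd0 : (1 : ℤ) ≤ d := by exact_mod_cast hd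
    have h80 : 8 * (d : ℤ) < R := by exact_mod_cast h8
    have hfin : Pr (fun _ => (1 / 2 : ℝ)) D.edges (NX D z d R) ≤
        2 * C₀ * ((d : ℝ) / R) ^ (1 / 3 : ℝ) := by
      -- which side
      have hside : z.1 - D.l ≤ d ∨ D.r - z.1 ≤ d ∨ z.2 ≤ d ∨ D.h - z.2 ≤ d := by
        unfold Dm.bd at hbd
        simp only [min_le_iff] at hbd
        exact or_assoc.1 hbd
      rcases hside with hs | hs | hs | hs
      · -- left side, wired
        have a1 : 999 * (R : ℤ) ≤ z.2 := by clear q2 q3 q4 q5 q6; omega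
        have a2 : 999 * (R : ℤ) ≤ D.h - z.2 := by clear q1 q2 q4 q5 q6; omega
        clear q1 q2 q3 q4 q5 q6 hq1
        apply wired_bound hC₀.le hW hd h8 (v := (D.l, z.2))
        · rintro f (⟨f1, f2, f3⟩ | ⟨f1, f2, f3⟩ | ⟨f1, f2, f3⟩) <;> rw [le_sd] <;> omega
        · rintro ⟨x, y, _ | _⟩ he hw h1 h2
          · rw [Dm.edges, mem_RE_false] at he
            rw [dsrc_false, dtgt_mk, mem_V, mem_V]
            rw [dtgt_mk, sd_le] at h2
            have hx : x ≠ D.l := by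
              rintro rfl
              exact hw (Or.inr (Or.inl ⟨rfl, rfl, he.2.2.1, he.2.2.2⟩))
            omega
          · rw [Dm.edges, mem_RE_true] at he
            rw [dsrc_true, dtgt_mk, mem_V, mem_V]
            rw [dtgt_mk, sd_le] at h2
            omega
        · apply win_left <;> (try simp only) <;> omega
        · rw [sd_le]; simp only; omega
      · -- right side, free
        have a1 : 999 * (R : ℤ) ≤ z.2 := by clear q1 q3 q4 q5 q6; omega
        have a2 : 999 * (R : ℤ) ≤ D.h - z.2 := by clear q1 q2 q3 q5 q6; omega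
        clear q1 q2 q3 q4 q5 q6 hq1
        apply free_bound hC₀.le hW hd h8 (v := (D.r, z.2))
        · rintro u ⟨⟨x, y, b⟩, he, hu⟩
          rcases he with ⟨e1, e2, e3, e4⟩ | ⟨e1, e2, e3, e4⟩ | ⟨e1, e2, e3, e4⟩ <;>
          simp only at e1 e2 e3 e4 <;> subst e1 <;>
          rcases hu with rfl | rfl <;> rw [le_sd] <;>
          simp only [src_mk, tgt_true, tgt_false] <;> omega
        · apply win_right <;> (try simp only) <;> omega
        · rw [sd_le]; simp only; omega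
      · -- bottom side
        have a1 : 999 * (R : ℤ) ≤ z.1 - D.l := by clear q2 q3 q4 q5 q6; omega
        have a2 : 999 * (R : ℤ) ≤ D.r - z.1 := by clear q1 q3 q4 q5 q6; omega
        have a3 : 999 * (R : ℤ) ≤ z.1 ∨ z.1 ≤ -(999 * (R : ℤ)) := by
          clear q1 q2 q3 q4 q5; omega
        clear q1 q2 q3 q4 q5 q6 hq1
        rcases a3 with a3 | a3
        · apply free_bound hC₀.le hW hd h8 (v := (z.1, 0))
          · rintro u ⟨⟨x, y, b⟩, he, hu⟩
            rcases he with ⟨e1, e2, e3, e4⟩ | ⟨e1, e2, e3, e4⟩ | ⟨e1, e2, e3, e4⟩ <;>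
            simp only at e1 e2 e3 e4 <;> subst e1 <;>
            rcases hu with rfl | rfl <;> rw [le_sd] <;>
            simp only [src_mk, tgt_true, tgt_false] <;> omega
          · apply win_bot <;> (try simp only) <;> omega
          · rw [sd_le]; simp only; omega
        · apply wired_bound hC₀.le hW hd h8 (v := (z.1, 0))
          · rintro f (⟨f1, f2, f3⟩ | ⟨f1, f2, f3⟩ | ⟨f1, f2, f3⟩) <;> rw [le_sd] <;> omega
          · rintro ⟨x, y, _ | _⟩ he hw h1 h2
            · rw [Dm.edges, mem_RE_false] at he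
              rw [dsrc_false, dtgt_mk, mem_V, mem_V]
              rw [dtgt_mk, sd_le] at h2
              omega
            · rw [Dm.edges, mem_RE_true] at he
              rw [dsrc_true, dtgt_mk, mem_V, mem_V]
              rw [dtgt_mk, sd_le] at h2
              simp only at h2
              have hy : y ≠ 0 := by
                rintro rfl
                exact hw (Or.inr (Or.inr ⟨rfl, rfl, he.1, by omega⟩))
              omega
          · apply win_bot <;> (try simp only) <;> omega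
          · rw [sd_le]; simp only; omega
      · -- top side
        have a1 : 999 * (R : ℤ) ≤ z.1 - D.l := by clear q1 q2 q4 q5 q6; omega
        have a2 : 999 * (R : ℤ) ≤ D.r - z.1 := by clear q1 q2 q3 q5 q6; omega
        have a3 : 999 * (R : ℤ) ≤ z.1 - D.t ∨ z.1 - D.t ≤ -(999 * (R : ℤ)) := by
          clear q1 q2 q3 q4 q6; omega
        clear q1 q2 q3 q4 q5 q6 hq1
        rcases a3 with a3 | a3
        · apply free_bound hC₀.le hW hd h8 (v := (z.1, D.h))
          · rintro u ⟨⟨x, y, b⟩, he, hu⟩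
            rcases he with ⟨e1, e2, e3, e4⟩ | ⟨e1, e2, e3, e4⟩ | ⟨e1, e2, e3, e4⟩ <;>
            simp only at e1 e2 e3 e4 <;> subst e1 <;>
            rcases hu with rfl | rfl <;> rw [le_sd] <;>
            simp only [src_mk, tgt_true, tgt_false] <;> omega
          · apply win_top <;> (try simp only) <;> omega
          · rw [sd_le]; simp only; omega
        · apply wired_bound hC₀.le hW hd h8 (v := (z.1, D.h - 1))
          · rintro f (⟨f1, f2, f3⟩ | ⟨f1, f2, f3⟩ | ⟨f1, f2, f3⟩) <;> rw [le_sd] <;> omega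
          · rintro ⟨x, y, _ | _⟩ he hw h1 h2
            · rw [Dm.edges, mem_RE_false] at he
              rw [dsrc_false, dtgt_mk, mem_V, mem_V]
              rw [dtgt_mk, sd_le] at h2
              omega
            · rw [Dm.edges, mem_RE_true] at he
              rw [dsrc_true, dtgt_mk, mem_V, mem_V]
              rw [dtgt_mk, sd_le] at h2
              simp only at h2
              have hy : y ≠ D.h := by
                rintro rfl
                exact hw (Or.inl ⟨rfl, rfl, he.1, by omega⟩)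
              omega
          · apply win_top <;> (try simp only) <;> omega
          · rw [sd_le]; simp only; omega
    refine hfin.trans ?_
    nlinarith

end Pool.Agent.N690.EW
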